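import Pool.Agent.helper69.AD.GS2

open scoped MatrixGroups LinearAlgebra.Projectivization
open Matrix UpperHalfPlane

namespace AdSBend

/-- cyclic order of real numbers -/
def BD12_C (a b c : ℝ) : Prop := (a < b ∧ b < c) ∨ (b < c ∧ c < a) ∨ (c < a ∧ a < b)

theorem BD12_exists (h3 : BD3_stmt) (s : Finset Bd) : ∃ f : Bd → ℝ,
    (∀ a ∈ s, ∀ b ∈ s, f a = f b → a = b) ∧
    ∀ a ∈ s, ∀ b ∈ s, ∀ c ∈ s, (Cyc a b c ↔ BD12_C (f a) (f b) (f c)) := by
  classical
  have hinf : Infinite Bd := by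
    obtain ⟨f, hf, -⟩ := h3 bInf
    choose g hg using hf
    refine Infinite.of_injective g ?_
    intro s t hst
    rw [← (hg s).2, ← (hg t).2, hst]
  obtain ⟨x, hx⟩ := Infinite.exists_notMem_finset s
  obtain ⟨f, hf1, hf2, hf3, hf4, hf5⟩ := h3 x
  have hne : ∀ a ∈ s, a ≠ x := by
    rintro a ha rfl
    exact hx ha
  exact ⟨f, fun a ha b hb => hf2 a b (hne a ha) (hne b hb),
    fun a ha b hb c hc => hf4 a b c (hne a ha) (hne b hb) (hne c hc)⟩

/-- a map of at most six given points to the reals -/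
theorem BD12_six (h3 : BD3_stmt) (a b c d e g : Bd) : ∃ f : Bd → ℝ,
    (∀ x y, (x = a ∨ x = b ∨ x = c ∨ x = d ∨ x = e ∨ x = g) →
      (y = a ∨ y = b ∨ y = c ∨ y = d ∨ y = e ∨ y = g) → f x = f y → x = y) ∧
    ∀ x y z, (x = a ∨ x = b ∨ x = c ∨ x = d ∨ x = e ∨ x = g) →
      (y = a ∨ y = b ∨ y = c ∨ y = d ∨ y = e ∨ y = g) →
      (z = a ∨ z = b ∨ z = c ∨ z = d ∨ z = e ∨ z = g) →
      (Cyc x y z ↔ BD12_C (f x) (f y) (f z)) := by
  classical
  obtain ⟨f, hf1, hf2⟩ := BD12_exists h3 {a, b, c, d, e, g}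
  have hm : ∀ x, (x = a ∨ x = b ∨ x = c ∨ x = d ∨ x = e ∨ x = g) →
      x ∈ ({a, b, c, d, e, g} : Finset Bd) := by
    intro x hx
    simpa using hx
  exact ⟨f, fun x y hx hy => hf1 x (hm x hx) y (hm y hy),
    fun x y z hx hy hz => hf2 x (hm x hx) y (hm y hy) z (hm z hz)⟩

theorem BD12 (h3 : BD3_stmt) : BD12_stmt := by
  refine ⟨?_, ?_, ?_, ?_, ?_, ?_, ?_, ?_, ?_, ?_, ?_⟩
  · intro p q
    obtain ⟨f, -, hf⟩ := BD12_six h3 p.1 p.2 q.1 q.2 q.2 q.2
    unfold Facing
    rw [hf p.1 p.2 q.1 (by simp) (by simp) (by simp), hf p.1 q.1 q.2 (by simp) (by simp) (by simp),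
      hf q.1 q.2 p.1 (by simp) (by simp) (by simp), hf q.1 p.1 p.2 (by simp) (by simp) (by simp)]
    unfold BD12_C
    grind
  · intro p q
    obtain ⟨f, -, hf⟩ := BD12_six h3 p.1 p.2 q.1 q.2 q.2 q.2
    unfold Facing Inside
    rw [hf p.1 p.2 q.1 (by simp) (by simp) (by simp), hf p.1 q.1 q.2 (by simp) (by simp) (by simp),
      hf q.2 p.1 p.2 (by simp) (by simp) (by simp), hf q.2 p.2 q.1 (by simp) (by simp) (by simp)]
    unfold BD12_C
    grind
  · intro p q
    obtain ⟨f, -, hf⟩ := BD12_six h3 p.1 p.2 q.1 q.2 q.2 q.2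
    unfold Inside
    rw [hf q.1 p.1 p.2 (by simp) (by simp) (by simp), hf q.1 p.2 q.2 (by simp) (by simp) (by simp),
      hf p.2 q.2 q.1 (by simp) (by simp) (by simp), hf p.2 q.1 p.1 (by simp) (by simp) (by simp)]
    unfold BD12_C
    grind
  · intro p q r
    obtain ⟨f, -, hf⟩ := BD12_six h3 p.1 p.2 q.1 q.2 r.1 r.2
    unfold Inside
    rw [hf q.1 p.1 p.2 (by simp) (by simp) (by simp), hf q.1 p.2 q.2 (by simp) (by simp) (by simp),
      hf r.1 q.1 q.2 (by simp) (by simp) (by simp), hf r.1 q.2 r.2 (by simp) (by simp) (by simp),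
      hf r.1 p.1 p.2 (by simp) (by simp) (by simp), hf r.1 p.2 r.2 (by simp) (by simp) (by simp)]
    unfold BD12_C
    grind
  · intro p q r
    obtain ⟨f, -, hf⟩ := BD12_six h3 p.1 p.2 q.1 q.2 r.1 r.2
    unfold Inside Facing
    rw [hf q.1 p.1 p.2 (by simp) (by simp) (by simp), hf q.1 p.2 q.2 (by simp) (by simp) (by simp),
      hf q.1 q.2 r.1 (by simp) (by simp) (by simp), hf q.1 r.1 r.2 (by simp) (by simp) (by simp),
      hf p.1 p.2 r.1 (by simp) (by simp) (by simp), hf p.1 r.1 r.2 (by simp) (by simp) (by simp)]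
    unfold BD12_C
    grind
  · intro p q
    obtain ⟨f, -, hf⟩ := BD12_six h3 p.1 p.2 q.1 q.2 q.2 q.2
    unfold Inside
    rw [hf q.1 p.1 p.2 (by simp) (by simp) (by simp), hf q.1 p.2 q.2 (by simp) (by simp) (by simp),
      hf p.1 q.1 q.2 (by simp) (by simp) (by simp), hf p.1 q.2 p.2 (by simp) (by simp) (by simp)]
    unfold BD12_C
    grind
  · intro p q
    obtain ⟨f, -, hf⟩ := BD12_six h3 p.1 p.2 q.1 q.2 q.2 q.2
    unfold Inside Facing
    rw [hf q.1 p.1 p.2 (by simp) (by simp) (by simp), hf q.1 p.2 q.2 (by simp) (by simp) (by simp),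
      hf p.1 p.2 q.1 (by simp) (by simp) (by simp), hf p.1 q.1 q.2 (by simp) (by simp) (by simp)]
    unfold BD12_C
    grind
  · intro p q h1 h2 h3' h4 h5 h6
    obtain ⟨f, hi, hf⟩ := BD12_six h3 p.1 p.2 q.1 q.2 q.2 q.2
    have g1 : f p.1 ≠ f p.2 := fun h => h1 (hi _ _ (by simp) (by simp) h)
    have g2 : f q.1 ≠ f q.2 := fun h => h2 (hi _ _ (by simp) (by simp) h)
    have g3 : f p.1 ≠ f q.1 := fun h => h3' (hi _ _ (by simp) (by simp) h)
    have g4 : f p.1 ≠ f q.2 := fun h => h4 (hi _ _ (by simp) (by simp) h)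
    have g5 : f p.2 ≠ f q.1 := fun h => h5 (hi _ _ (by simp) (by simp) h)
    have g6 : f p.2 ≠ f q.2 := fun h => h6 (hi _ _ (by simp) (by simp) h)
    unfold Linked Inside Facing
    rw [hf p.1 q.1 p.2 (by simp) (by simp) (by simp), hf p.1 p.2 q.2 (by simp) (by simp) (by simp),
      hf p.1 q.2 p.2 (by simp) (by simp) (by simp), hf p.1 p.2 q.1 (by simp) (by simp) (by simp),
      hf q.1 p.1 p.2 (by simp) (by simp) (by simp), hf q.1 p.2 q.2 (by simp) (by simp) (by simp),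
      hf p.1 q.1 q.2 (by simp) (by simp) (by simp),
      hf p.2 p.1 q.2 (by simp) (by simp) (by simp), hf p.2 q.2 q.1 (by simp) (by simp) (by simp)]
    unfold BD12_C
    clear hf hi h1 h2 h3' h4 h5 h6
    generalize f p.1 = a at *
    generalize f p.2 = b at *
    generalize f q.1 = c at *
    generalize f q.2 = d at *
    rcases lt_or_gt_of_ne g1 with k1 | k1 <;> rcases lt_or_gt_of_ne g2 with k2 | k2 <;>
    rcases lt_or_gt_of_ne g3 with k3 | k3 <;> rcases lt_or_gt_of_ne g4 with k4 | k4 <;>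
    rcases lt_or_gt_of_ne g5 with k5 | k5 <;> rcases lt_or_gt_of_ne g6 with k6 | k6 <;>
    grind
  · intro p q
    obtain ⟨f, -, hf⟩ := BD12_six h3 p.1 p.2 q.1 q.2 q.2 q.2
    unfold Linked Inside
    rw [hf q.1 p.1 p.2 (by simp) (by simp) (by simp), hf q.1 p.2 q.2 (by simp) (by simp) (by simp),
      hf p.1 q.1 p.2 (by simp) (by simp) (by simp), hf p.1 p.2 q.2 (by simp) (by simp) (by simp),
      hf p.1 q.2 p.2 (by simp) (by simp) (by simp), hf p.1 p.2 q.1 (by simp) (by simp) (by simp)]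
    unfold BD12_C
    grind
  · intro x y x' y'
    obtain ⟨f, -, hf⟩ := BD12_six h3 x y x' y' y' y'
    unfold Linked
    rw [hf x x' y (by simp) (by simp) (by simp), hf x y y' (by simp) (by simp) (by simp),
      hf x y' y (by simp) (by simp) (by simp), hf x y x' (by simp) (by simp) (by simp),
      hf x' x y' (by simp) (by simp) (by simp), hf x' y' y (by simp) (by simp) (by simp),
      hf x' y y' (by simp) (by simp) (by simp), hf x' y' x (by simp) (by simp) (by simp)]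
    unfold BD12_C
    grind
  · intro x y x' y'
    obtain ⟨f, -, hf⟩ := BD12_six h3 x y x' y' y' y'
    unfold Linked
    rw [hf x x' y (by simp) (by simp) (by simp), hf x y y' (by simp) (by simp) (by simp),
      hf x y' y (by simp) (by simp) (by simp), hf x y x' (by simp) (by simp) (by simp),
      hf y x' x (by simp) (by simp) (by simp), hf y x y' (by simp) (by simp) (by simp),
      hf y y' x (by simp) (by simp) (by simp), hf y x x' (by simp) (by simp) (by simp)]
    unfold BD12_C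
    grind

end AdSBend
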