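import Pool.Agent.helper69.AD.GS4
import Pool.Agent.helper18.AG.BD8
import Pool.Agent.helper26.AG.BD7

/-! Module CLF of the project ad (MP_a29257_gt): products of elements with facing axes. -/

open scoped MatrixGroups LinearAlgebra.Projectivization
open Matrix UpperHalfPlane

namespace AdSBend

theorem CLF_peq_mul {a b c d : SL(2, ℝ)} (h : PEq a b) (h' : PEq c d) : PEq (a * c) (b * d) := by
  rcases h with rfl | rfl <;> rcases h' with rfl | rfl
  · exact Or.inl rfl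
  · exact Or.inr (mul_neg _ _)
  · exact Or.inr (neg_mul _ _)
  · exact Or.inl (neg_mul_neg _ _)

theorem CLF_pow_peq {g F : SL(2, ℝ)} {s : ℝ} (hg : PEq g (F * Dm s * F⁻¹)) (n : ℕ) :
    PEq (g ^ n) (F * Dm (n * s) * F⁻¹) := by
  induction n with
  | zero =>
    left
    simp [BD8_Dm_zero]
  | succ n ih =>
    have h := CLF_peq_mul ih hg
    rw [← pow_succ] at h
    have e : F * Dm (n * s) * F⁻¹ * (F * Dm s * F⁻¹) = F * Dm ((n + 1 : ℕ) * s) * F⁻¹ := by
      have : ((n + 1 : ℕ) : ℝ) * s = n * s + s := by push_cast; ring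
      rw [this, ← BD8_Dm_mul]
      group
    rwa [e] at h

theorem CLF_abs {g h : SL(2, ℝ)} (e : PEq g h) : |trc g| = |trc h| := by
  rcases e with rfl | rfl
  · rfl
  · rw [BD8_trc_neg, abs_neg]

theorem CLF_pos_peq (g : SL(2, ℝ)) : PEq g (pos g) := by
  unfold pos
  split_ifs
  · exact Or.inl rfl
  · exact Or.inr (neg_neg g).symm

theorem CLF_entries (M : SL(2, ℝ)) (s t : ℝ) :
    (Dm s * M * Dm t * M⁻¹).1 0 0 = Real.exp (s / 2) * (M.1 0 0 * M.1 1 1 * Real.exp (t / 2)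
      - M.1 0 1 * M.1 1 0 * Real.exp (-(t / 2))) ∧
    (Dm s * M * Dm t * M⁻¹).1 0 1 = Real.exp (s / 2) * (M.1 0 0 * M.1 0 1 *
      (Real.exp (-(t / 2)) - Real.exp (t / 2))) ∧
    (Dm s * M * Dm t * M⁻¹).1 1 0 = Real.exp (-(s / 2)) * (M.1 1 0 * M.1 1 1 *
      (Real.exp (t / 2) - Real.exp (-(t / 2)))) ∧
    (Dm s * M * Dm t * M⁻¹).1 1 1 = Real.exp (-(s / 2)) * (M.1 0 0 * M.1 1 1 *
      Real.exp (-(t / 2)) - M.1 0 1 * M.1 1 0 * Real.exp (t / 2)) := by
  obtain ⟨a, b, c, d, hM⟩ : ∃ a b c d, M.1 = !![a, b; c, d] :=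
    ⟨_, _, _, _, Matrix.eta_fin_two M.1⟩
  have hv : (Dm s * M * Dm t * M⁻¹).1 = !![Real.exp (s / 2), 0; 0, Real.exp (-(s / 2))] *
      !![a, b; c, d] * !![Real.exp (t / 2), 0; 0, Real.exp (-(t / 2))] * !![d, -b; -c, a] := by
    have h1 : (M⁻¹).1 = !![d, -b; -c, a] := by
      have := Matrix.SpecialLinearGroup.coe_inv M
      rw [this, hM, Matrix.adjugate_fin_two]
      simp
    have h2 : (Dm s * M * Dm t * M⁻¹).1 = (Dm s).1 * M.1 * (Dm t).1 * (M⁻¹).1 := rfl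
    rw [h2, h1, hM]
    rfl
  rw [hv, hM]
  simp only [Matrix.mul_fin_two]
  refine ⟨?_, ?_, ?_, ?_⟩ <;>
  · simp
    ring

theorem CLF_trace (F G : SL(2, ℝ)) (s t : ℝ) :
    trc (F * Dm s * F⁻¹ * (G * Dm t * G⁻¹)) =
      2 * (Real.cosh (s / 2) * Real.cosh (t / 2) + Real.sinh (s / 2) * Real.sinh (t / 2) *
        (1 + 2 * ((F⁻¹ * G).1 0 1 * (F⁻¹ * G).1 1 0))) := by
  have e : F * Dm s * F⁻¹ * (G * Dm t * G⁻¹)
      = F * (Dm s * (F⁻¹ * G) * Dm t * (F⁻¹ * G)⁻¹) * F⁻¹ := by group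
  rw [e, BD8_trc_conj]
  generalize F⁻¹ * G = M
  obtain ⟨h1, -, -, h4⟩ := CLF_entries M s t
  unfold trc
  rw [h1, h4]
  have hd := M.2
  rw [Matrix.det_fin_two] at hd
  have hd' : M.1 0 0 * M.1 1 1 = 1 + M.1 0 1 * M.1 1 0 := by linarith
  rw [hd', Real.cosh_eq, Real.cosh_eq, Real.sinh_eq, Real.sinh_eq]
  ring

/-- the real computation for the figure eight -/
theorem CLF_real (α β γ δ E Ei L Li : ℝ) (hd : α * δ - β * γ = 1) (h1 : 0 < α * γ)
    (h2 : 0 < β * δ) (h3 : α * β < 0) (h4 : γ * δ < 0) (hE : E * Ei = 1) (hL : L * Li = 1)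
    (hE1 : Ei < E) (hL1 : Li < L) (hEi : 0 < Ei) (hLi : 0 < Li) :
    ∃ x y : ℝ, 0 < y ∧ y < Li ^ 2 * x ∧
      L * (α * δ * Ei - β * γ * E) * x + L * (α * β * (E - Ei)) =
        x * (Li * (γ * δ * (Ei - E)) * x + Li * (α * δ * E - β * γ * Ei)) ∧
      L * (α * δ * Ei - β * γ * E) * y + L * (α * β * (E - Ei)) =
        y * (Li * (γ * δ * (Ei - E)) * y + Li * (α * δ * E - β * γ * Ei)) := by
  have hEp : 0 < E := lt_trans hEi hE1
  have hLp : 0 < L := lt_trans hLi hL1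
  have hγ : γ ≠ 0 := by rintro rfl; simp at h1
  have hδ : δ ≠ 0 := by rintro rfl; simp at h2
  obtain ⟨u1, hu1⟩ : ∃ u1, α = γ * u1 := ⟨α / γ, by field_simp⟩
  obtain ⟨u2, hu2⟩ : ∃ u2, β = δ * u2 := ⟨β / δ, by field_simp⟩
  have hu1p : 0 < u1 := by
    rw [hu1] at h1
    have : 0 < γ ^ 2 * u1 := by nlinarith
    have hg2 : 0 < γ ^ 2 := by positivity
    exact (mul_pos_iff_of_pos_left hg2).1 this
  have hu2p : 0 < u2 := by
    rw [hu2] at h2
    have : 0 < δ ^ 2 * u2 := by nlinarith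
    have hg2 : 0 < δ ^ 2 := by positivity
    exact (mul_pos_iff_of_pos_left hg2).1 this
  have hgd : γ * δ * (u1 - u2) = 1 := by rw [hu1, hu2] at hd; linarith
  have h12 : u1 < u2 := by
    by_contra h
    push Not at h
    nlinarith
  obtain ⟨c, hc⟩ : ∃ c, c = γ * δ * (Ei - E) := ⟨_, rfl⟩
  have hcp : 0 < c := by rw [hc]; nlinarith
  obtain ⟨n11, hn11⟩ : ∃ n, n = α * δ * Ei - β * γ * E := ⟨_, rfl⟩
  obtain ⟨n22, hn22⟩ : ∃ n, n = α * δ * E - β * γ * Ei := ⟨_, rfl⟩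
  obtain ⟨n12, hn12⟩ : ∃ n, n = α * β * (E - Ei) := ⟨_, rfl⟩
  have e1 : c * u1 + n22 = Ei := by
    have : γ * δ * u1 = 1 + γ * δ * u2 := by linarith
    rw [hc, hn22, hu1, hu2]
    linear_combination (Ei) * hgd
  have e2 : c * u2 + n22 = E := by
    rw [hc, hn22, hu1, hu2]
    linear_combination (E) * hgd
  have e3 : n11 * u1 + n12 = Ei * u1 := by
    rw [hn11, hn12, hu1, hu2]
    linear_combination (Ei * u1) * hgd
  have e4 : n11 * u2 + n12 = E * u2 := by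
    rw [hn11, hn12, hu1, hu2]
    linear_combination (E * u2) * hgd
  have e5 : n11 - c * u2 = Ei := by
    rw [hn11, hc, hu1, hu2]
    linear_combination (Ei) * hgd
  rw [← hc, ← hn11, ← hn22, ← hn12]
  have hn12n : n12 < 0 := by rw [hn12]; nlinarith
  obtain ⟨f, hf⟩ : ∃ f : ℝ → ℝ, f = fun z => z * (Li * c * z + Li * n22) - (L * n11 * z + L * n12) :=
    ⟨_, rfl⟩
  have hfc : Continuous f := by rw [hf]; fun_prop
  have hf0 : 0 < f 0 := by rw [hf]; simp only; nlinarith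
  have hf1 : f u1 < 0 := by
    have : f u1 = -((L - Li) * Ei * u1) := by
      rw [hf]; simp only
      linear_combination (u1 * Li) * e1 - L * e3
    rw [this]
    have : 0 < (L - Li) * Ei * u1 := mul_pos (mul_pos (by linarith) hEi) hu1p
    linarith
  have hf2 : f u2 < 0 := by
    have : f u2 = -((L - Li) * E * u2) := by
      rw [hf]; simp only
      linear_combination (u2 * Li) * e2 - L * e4
    rw [this]
    have : 0 < (L - Li) * E * u2 := mul_pos (mul_pos (by linarith) hEp) hu2p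
    linarith
  obtain ⟨y, hy, hfy⟩ := intermediate_value_Ioo' hu1p.le hfc.continuousOn
    (show (0 : ℝ) ∈ Set.Ioo (f u1) (f 0) from ⟨hf1, hf0⟩)
  have hcL : 0 < Li * c := mul_pos hLi hcp
  obtain ⟨x, hx⟩ : ∃ x, Li * c * (x + y) = L * n11 - Li * n22 := by
    refine ⟨(L * n11 - Li * n22) / (Li * c) - y, ?_⟩
    field_simp
    ring
  have hfac : ∀ z, f z = (z - y) * (Li * c * (z - x)) := by
    intro z
    have : f z = f z - f y := by rw [hfy, sub_zero]
    rw [this, hf]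
    simp only
    linear_combination (z - y) * hx
  have hx2 : u2 < x := by
    rw [hfac] at hf2
    by_contra hcon
    push Not at hcon
    have : 0 ≤ (u2 - y) * (Li * c * (u2 - x)) :=
      mul_nonneg (by linarith [hy.2]) (mul_nonneg hcL.le (by linarith))
    linarith
  have hfx : f x = 0 := by rw [hfac]; ring
  have hxe : x * (Li * c * x + Li * n22) = L * n11 * x + L * n12 := by
    rw [hf] at hfx
    simp only at hfx
    linarith
  have hye : y * (Li * c * y + Li * n22) = L * n11 * y + L * n12 := by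
    rw [hf] at hfy
    simp only at hfy
    linarith
  refine ⟨x, y, hy.1, ?_, hxe.symm, hye.symm⟩
  have hden : 0 < c * x + n22 := by nlinarith
  have hN : Li ^ 2 * x * (c * x + n22) = n11 * x + n12 := by
    have h5 : Li * (x * (Li * c * x + Li * n22)) = Li * (L * n11 * x + L * n12) := by rw [hxe]
    have h6 : Li * (L * n11 * x + L * n12) = n11 * x + n12 := by
      linear_combination (n11 * x + n12) * hL
    rw [h6] at h5
    rw [← h5]
    ring
  have hu : (Li ^ 2 * x - u2) * (c * x + n22) = Ei * (x - u2) := by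
    linear_combination hN - u2 * e2 + e4 + (x - u2) * e5
  have : 0 < (Li ^ 2 * x - u2) * (c * x + n22) := by
    rw [hu]
    exact mul_pos hEi (by linarith)
  have h7 : 0 < Li ^ 2 * x - u2 := (mul_pos_iff_of_pos_right hden).1 this
  linarith [hy.2]

theorem CLF_fix (W : SL(2, ℝ)) (z : ℝ) (h : W.1 0 0 * z + W.1 0 1 = z * (W.1 1 0 * z + W.1 1 1)) :
    W • bPt z = bPt z := by
  unfold bPt
  rw [Projectivization.smul_mk, BD7_eq]
  unfold dt
  rw [BD7_smul_vec, BD7_smul_vec]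
  simp only [Matrix.cons_val_zero, Matrix.cons_val_one]
  linarith

theorem CLF_signs (h6 : BD6_stmt) (h9 : BD9_stmt) (h12 : BD12_stmt) {F G : SL(2, ℝ)}
    {p q : Bd × Bd} (hF : IsFrame F p) (hG : IsFrame G q) (h : Facing p q) :
    0 < (F⁻¹ * G).1 0 0 * (F⁻¹ * G).1 1 0 ∧ 0 < (F⁻¹ * G).1 0 1 * (F⁻¹ * G).1 1 1 ∧
    (F⁻¹ * G).1 0 0 * (F⁻¹ * G).1 0 1 < 0 ∧ (F⁻¹ * G).1 1 0 * (F⁻¹ * G).1 1 1 < 0 ∧
    (F⁻¹ * G).1 0 0 * (F⁻¹ * G).1 1 1 < 0 := by
  have h1 := (h12.2.1 p q).1 h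
  have hG' : IsFrame (G * Rm) (q.2, q.1) := h6.2.2.2.2.1 G q hG
  have h2 := (h9 F (G * Rm) p (q.2, q.1) hF hG').1 h1
  have e : F⁻¹ * (G * Rm) = (F⁻¹ * G) * Rm := by group
  rw [e] at h2
  generalize F⁻¹ * G = M at *
  have e0 : ∀ i, (M * Rm).1 i 0 = - M.1 i 1 := by
    intro i
    change (M.1 * Rm.1) i 0 = _
    rw [Matrix.mul_apply, Fin.sum_univ_two]
    simp [Rm]
  have e1 : ∀ i, (M * Rm).1 i 1 = M.1 i 0 := by
    intro i
    change (M.1 * Rm.1) i 1 = _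
    rw [Matrix.mul_apply, Fin.sum_univ_two]
    simp [Rm]
  rcases h2 with h2 | h2
  · have a1 := h2 0 0
    have a2 := h2 0 1
    have a3 := h2 1 0
    have a4 := h2 1 1
    rw [e0] at a1 a3
    rw [e1] at a2 a4
    refine ⟨?_, ?_, ?_, ?_, ?_⟩ <;> nlinarith
  · have k : ∀ i j, (-(M * Rm)).1 i j = - (M * Rm).1 i j := fun i j => rfl
    have a1 := h2 0 0
    have a2 := h2 0 1
    have a3 := h2 1 0
    have a4 := h2 1 1
    rw [k, e0] at a1 a3
    rw [k, e1] at a2 a4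
    refine ⟨?_, ?_, ?_, ?_, ?_⟩ <;> nlinarith

theorem CLF (h2 : BD2_stmt) (h6 : BD6_stmt) (h7 : BD7_stmt) (h8 : BD8_stmt) (h9 : BD9_stmt)
    (h12 : BD12_stmt) : CLF_stmt := by
  intro a x p q ha hx hpq
  obtain ⟨F, hF⟩ := h6.1 p ha.1
  obtain ⟨G, hG⟩ := h6.1 q hx.1
  obtain ⟨hpa, hla⟩ := h8.2.1 a F p ha hF
  obtain ⟨hpx, hlx⟩ := h8.2.1 x G q hx hG
  have pa : PEq a (F * Dm (len a) * F⁻¹) := by rw [← hpa]; exact CLF_pos_peq a
  have px : PEq x (G * Dm (len x) * G⁻¹) := by rw [← hpx]; exact CLF_pos_peq x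
  obtain ⟨s1, s2, s3, s4, s5⟩ := CLF_signs h6 h9 h12 hF hG hpq
  have hd := (F⁻¹ * G).2
  rw [Matrix.det_fin_two] at hd
  have hbc : (F⁻¹ * G).1 0 1 * (F⁻¹ * G).1 1 0 < -1 := by linarith
  obtain ⟨C, hC⟩ : ∃ C, C = -(1 + 2 * ((F⁻¹ * G).1 0 1 * (F⁻¹ * G).1 1 0)) := ⟨_, rfl⟩
  have hC1 : 1 < C := by rw [hC]; linarith
  have hC' : 1 + 2 * ((F⁻¹ * G).1 0 1 * (F⁻¹ * G).1 1 0) = - C := by rw [hC]; ring
  have pan : ∀ m : ℕ, PEq (a ^ m) (F * Dm (m * len a) * F⁻¹) := fun m => CLF_pow_peq pa m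
  have pxn : ∀ n : ℕ, PEq (x ^ n) (G * Dm (n * len x) * G⁻¹) := fun n => CLF_pow_peq px n
  have inv_conj : ∀ (F : SL(2, ℝ)) (s : ℝ), (F * Dm s * F⁻¹)⁻¹ = F * Dm (-s) * F⁻¹ := by
    intro F s
    rw [← BD8_Dm_inv]
    group
  have pain : ∀ m : ℕ, PEq (a ^ m)⁻¹ (F * Dm (-(m * len a)) * F⁻¹) := fun m => by
    rw [← inv_conj]; exact BD8_inv_peq (pan m)
  have pxin : ∀ n : ℕ, PEq (x ^ n)⁻¹ (G * Dm (-(n * len x)) * G⁻¹) := fun n => by
    rw [← inv_conj]; exact BD8_inv_peq (pxn n)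
  have hpp : ∀ m n : ℕ, 1 ≤ m → 1 ≤ n →
      0 ≤ Real.sinh (m * len a / 2) * Real.sinh (n * len x / 2) * C ∧
      1 ≤ Real.cosh (m * len a / 2) * Real.cosh (n * len x / 2) ∧
      0 < Real.sinh (m * len a / 2) * Real.sinh (n * len x / 2) * C := by
    intro m n hm hn
    have hm' : (1 : ℝ) ≤ m := by exact_mod_cast hm
    have hn' : (1 : ℝ) ≤ n := by exact_mod_cast hn
    have g1 : 0 < Real.sinh (m * len a / 2) := Real.sinh_pos_iff.2 (by positivity)
    have g2 : 0 < Real.sinh (n * len x / 2) := Real.sinh_pos_iff.2 (by positivity)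
    have g3 : 0 < Real.sinh (m * len a / 2) * Real.sinh (n * len x / 2) * C :=
      mul_pos (mul_pos g1 g2) (by linarith)
    refine ⟨g3.le, ?_, g3⟩
    have k1 := Real.one_le_cosh (m * len a / 2)
    have k2 := Real.one_le_cosh (n * len x / 2)
    nlinarith
  have tr2 : ∀ m n : ℕ, 1 ≤ m → 1 ≤ n → |trc (a ^ m * (x ^ n)⁻¹)| =
      2 * (Real.cosh (m * len a / 2) * Real.cosh (n * len x / 2)
        + Real.sinh (m * len a / 2) * Real.sinh (n * len x / 2) * C) := by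
    intro m n hm hn
    rw [CLF_abs (CLF_peq_mul (pan m) (pxin n)), CLF_trace, hC', neg_div, Real.cosh_neg,
      Real.sinh_neg]
    have e : Real.sinh (m * len a / 2) * -Real.sinh (n * len x / 2) * -C =
        Real.sinh (m * len a / 2) * Real.sinh (n * len x / 2) * C := by ring
    rw [e, abs_of_nonneg]
    obtain ⟨g1, g2, -⟩ := hpp m n hm hn
    linarith
  refine ⟨⟨C, hC1, fun m n hm hn => ⟨?_, tr2 m n hm hn, ?_⟩⟩, ?_⟩
  · have hm' : (1 : ℝ) ≤ m := by exact_mod_cast hm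
    have hn' : (1 : ℝ) ≤ n := by exact_mod_cast hn
    rw [(BD8_pos_len (by positivity) (pan m)).1, (BD8_pos_len (by positivity) (pxn n)).1,
      CLF_trace, hC']
    ring
  · rw [CLF_abs (CLF_peq_mul (pain m) (pxn n)), CLF_trace, hC', neg_div, Real.cosh_neg,
      Real.sinh_neg]
    have e : -Real.sinh (m * len a / 2) * Real.sinh (n * len x / 2) * -C =
        Real.sinh (m * len a / 2) * Real.sinh (n * len x / 2) * C := by ring
    rw [e, abs_of_nonneg]
    obtain ⟨g1, g2, -⟩ := hpp m n hm hn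
    linarith
  · have ht : 2 < |trc (a * x⁻¹)| := by
      have h1 := tr2 1 1 le_rfl le_rfl
      obtain ⟨g1, g2, g3⟩ := hpp 1 1 le_rfl le_rfl
      rw [pow_one, pow_one] at h1
      rw [h1]
      linarith
    obtain ⟨s, hs⟩ := (h8.2.2.2.1 _).1 ht
    have hw : PEq (a * x⁻¹) (F * (Dm (len a) * (F⁻¹ * G) * Dm (-len x) * (F⁻¹ * G)⁻¹) * F⁻¹) := by
      have h1 := CLF_peq_mul pa (BD8_inv_peq px)
      rw [inv_conj] at h1
      have e : F * Dm (len a) * F⁻¹ * (G * Dm (-len x) * G⁻¹) =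
        F * (Dm (len a) * (F⁻¹ * G) * Dm (-len x) * (F⁻¹ * G)⁻¹) * F⁻¹ := by group
      rwa [e] at h1
    have hE1 : Real.exp (-(len x / 2)) < Real.exp (len x / 2) :=
      Real.exp_lt_exp.2 (by linarith)
    have hL1 : Real.exp (-(len a / 2)) < Real.exp (len a / 2) :=
      Real.exp_lt_exp.2 (by linarith)
    obtain ⟨u, v, hv, huv, hu1, hv1⟩ := CLF_real _ _ _ _ (Real.exp (len x / 2))
      (Real.exp (-(len x / 2))) (Real.exp (len a / 2)) (Real.exp (-(len a / 2))) hd s1 s2 s3 s4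
      (by rw [← Real.exp_add, add_neg_cancel, Real.exp_zero])
      (by rw [← Real.exp_add, add_neg_cancel, Real.exp_zero]) hE1 hL1 (Real.exp_pos _)
      (Real.exp_pos _)
    have hLi : Real.exp (-(len a / 2)) ^ 2 = Real.exp (-len a) := by
      rw [sq, ← Real.exp_add]
      congr 1
      ring
    rw [hLi] at huv
    obtain ⟨w1, w2, w3, w4⟩ := CLF_entries (F⁻¹ * G) (len a) (-len x)
    have hneg : -(-len x / 2) = len x / 2 := by ring
    have hneg' : -len x / 2 = -(len x / 2) := by ring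
    rw [hneg, hneg'] at w1 w2 w3 w4
    have hfix : ∀ z : ℝ, (Dm (len a) * (F⁻¹ * G) * Dm (-len x) * (F⁻¹ * G)⁻¹) • bPt z = bPt z →
        (a * x⁻¹) • (F • bPt z) = F • bPt z := by
      intro z hz
      rw [BD8_peq_smul hw, mul_smul, mul_smul, inv_smul_smul, hz]
    have hfu : (a * x⁻¹) • (F • bPt u) = F • bPt u := by
      apply hfix
      apply CLF_fix
      rw [w1, w2, w3, w4]
      linear_combination hu1
    have hfv : (a * x⁻¹) • (F • bPt v) = F • bPt v := by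
      apply hfix
      apply CLF_fix
      rw [w1, w2, w3, w4]
      linear_combination hv1
    have hEa : Real.exp (-len a) < Real.exp 0 := Real.exp_lt_exp.2 (by linarith)
    rw [Real.exp_zero] at hEa
    have hEap : 0 < Real.exp (-len a) := Real.exp_pos _
    have hup : 0 < u := by
      by_contra hcon
      push Not at hcon
      nlinarith
    have huv' : v < u := by nlinarith
    have hvv : Real.exp (-len a) * v < v := by nlinarith
    have huu : Real.exp (-len a) * u < u := by nlinarith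
    have hne : F • bPt u ≠ F • bPt v := by
      intro h
      have := MulAction.injective F h
      have := h7.2.1 _ _ this
      linarith
    have pai : PEq a⁻¹ (F * Dm (-len a) * F⁻¹) := by
      rw [← inv_conj]; exact BD8_inv_peq pa
    have mu : a⁻¹ • (F • bPt u) = F • bPt (Real.exp (-len a) * u) := BD8_move h7 pai u
    have mv : a⁻¹ • (F • bPt v) = F • bPt (Real.exp (-len a) * v) := BD8_move h7 pai v
    have c1 := h8.2.2.2.2.2.2.2 _ s _ hs hfu
    have c2 := h8.2.2.2.2.2.2.2 _ s _ hs hfv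
    have cyc := h7.2.2.2.2.1
    refine ⟨s, hs, ?_⟩
    rcases c1 with c1 | c1 <;> rcases c2 with c2 | c2
    · exact absurd (c1.trans c2.symm) hne
    · rw [← c1, ← c2, mu, mv]
      unfold Linked
      rw [h2, h2, h2, h2, cyc, cyc, cyc, cyc]
      right
      exact ⟨Or.inr (Or.inl ⟨hvv, huv'⟩), Or.inr (Or.inl ⟨huv, huu⟩)⟩
    · rw [← c1, ← c2, mu, mv]
      unfold Linked
      rw [h2, h2, h2, h2, cyc, cyc, cyc, cyc]
      right
      exact ⟨Or.inl ⟨huv, huu⟩, Or.inr (Or.inr ⟨hvv, huv'⟩)⟩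
    · exact absurd (c1.trans c2.symm) hne

end AdSBend
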