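import Pool.Agent.helper6.AG.CLF
import Pool.Agent.helper6.AG.BD12

/-! Module HX6 of the project ad (MP_a29257_gt): the sides of a hexagon are not equivalent. -/

open scoped MatrixGroups LinearAlgebra.Projectivization
open Matrix UpperHalfPlane

namespace AdSBend

theorem HX6_ga_mul (a b : SL(2, ℝ)) (p : Bd × Bd) : ga (a * b) p = ga a (ga b p) := by
  simp only [ga, mul_smul]

theorem HX6_ga_one (p : Bd × Bd) : ga 1 p = p := by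
  simp only [ga, one_smul]

theorem HX6_ga_peq {a b : SL(2, ℝ)} (h : PEq a b) (p : Bd × Bd) : ga a p = ga b p := by
  simp only [ga, BD8_peq_smul h]

theorem HX6_ga_inv {a : SL(2, ℝ)} {p q : Bd × Bd} (h : ga a p = q) : ga a⁻¹ q = p := by
  rw [← h, ← HX6_ga_mul, inv_mul_cancel, HX6_ga_one]

theorem HX6_ga_zpow {a : SL(2, ℝ)} {p : Bd × Bd} (h : ga a p = p) (n : ℤ) : ga (a ^ n) p = p := by
  have h1 : a ∈ MulAction.stabilizer SL(2, ℝ) p.1 := by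
    rw [MulAction.mem_stabilizer_iff]
    exact congrArg Prod.fst h
  have h2 : a ∈ MulAction.stabilizer SL(2, ℝ) p.2 := by
    rw [MulAction.mem_stabilizer_iff]
    exact congrArg Prod.snd h
  have k1 := Subgroup.zpow_mem _ h1 n
  have k2 := Subgroup.zpow_mem _ h2 n
  rw [MulAction.mem_stabilizer_iff] at k1 k2
  exact Prod.ext k1 k2

/-- an element of the surface group with a trivial power is trivial -/
theorem HX6_tor (h8 : BD8_stmt) (m6 : GM6_stmt) {Γ : Subgroup SL(2, ℝ)}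
    (hΓ : IsClosedSurfaceGroup Γ) {g : SL(2, ℝ)} (hg : g ∈ Γ) {n : ℕ} (hn : 1 ≤ n)
    (h : PEq (g ^ n) 1) : PEq g 1 := by
  by_contra hcon
  obtain ⟨p, hp, -⟩ := m6 Γ hΓ g hg hcon
  obtain ⟨F, t, -, ht, hF⟩ := (h8.1 g p).1 hp
  have h1 := CLF_abs (CLF_pow_peq hF n)
  rw [CLF_abs h, BD8_trc_conj, BD8_trc_Dm] at h1
  have hn' : (1 : ℝ) ≤ n := by exact_mod_cast hn
  have h2 : 1 < Real.cosh (n * t / 2) := Real.one_lt_cosh.2 (by positivity)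
  have h3 : trc (1 : SL(2, ℝ)) = 2 := by
    unfold trc
    simp
    norm_num
  rw [h3, abs_of_pos (by norm_num : (0 : ℝ) < 2), abs_of_pos (by linarith)] at h1
  linarith

/-- a hexagon `(q, u, v)` whose leaf `u` lies strictly between two neighbours of `q` -/
theorem HX6_core (h2 : BD2_stmt) (h4 : BD4_stmt) (h12 : BD12_stmt)
    (m1 : GM1_stmt) (m3 : GM3_stmt) (n2 : PN2_stmt) (x1 : HX1_stmt)
    (x2 : HX2_stmt) (x4 : HX4_stmt) {Γ : Subgroup SL(2, ℝ)} (hΓ : IsClosedSurfaceGroup Γ)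
    {S : LeafSystem Γ} (hS : S.IsPants) {q x y u v : Bd × Bd} (hx : S.Hex q x y)
    (hu : S.Hex q u v) (hc : Cyc x.1 u.1 y.1) : u = ga (gen Γ y) q := by
  obtain ⟨r1, r2, r3, r4, r5, r6, r7⟩ := x1 Γ hΓ S
  obtain ⟨c1, c2, c3⟩ := n2 Γ hΓ S
  obtain ⟨d1, rot, -, tot, tr, -⟩ := h4
  -- hexagons at x and y
  have hxy : S.Hex x y q := r1 _ _ _ hx
  have hyq : S.Hex y q x := r1 _ _ _ hxy
  have hyw : S.Hex y x (ga (gen Γ y) q) := r2 _ _ _ hyq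
  have hw : ga (gen Γ x)⁻¹ q = ga (gen Γ y) q := r6 _ _ _ hx
  have hqx : S.CoPl q x := hx.1
  have hqy : S.CoPl q y := c1 _ _ hx.2.2.1
  have hqu : S.CoPl q u := hu.1
  have o1 : Cyc q.1 x.1 y.1 := hx.2.2.2.1
  have o2 : Cyc y.1 x.1 (ga (gen Γ y) q).1 := hyw.2.2.2.1
  -- generators
  have gy : IsGen Γ y (gen Γ y) := m1 Γ hΓ y (S.closed y hqy.2.1)
  have gx : IsGen Γ x (gen Γ x) := m1 Γ hΓ x (S.closed x hqx.2.1)
  obtain ⟨-, ⟨ay1, ay2, ay3, ay4⟩, -⟩ := gy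
  obtain ⟨-, ⟨ax1, ax2, ax3, ax4⟩, -⟩ := gx
  have hux : x ≠ u := by
    rintro rfl
    exact (d1 _ _ _ hc).1 rfl
  have huy : y ≠ u := by
    rintro rfl
    exact (d1 _ _ _ hc).2.1 rfl
  have cxu : S.CoPl x u := c3 q x u hqx hqu hux
  have cyu : S.CoPl y u := c3 q y u hqy hqu huy
  obtain ⟨w, hwd⟩ : ∃ w, w = ga (gen Γ y) q := ⟨_, rfl⟩
  rw [← hwd] at o2 hyw hw ⊢
  have hwL : w ∈ S.L := hyw.2.1.2.1
  -- the two non-linking facts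
  have l1 : ¬ Linked q.1 u.1 w.1 (gen Γ y • u.1) := by
    have := x2 Γ hΓ S _ _ _ _ _ _ hu (x4 Γ hΓ S hS _ _ _ hu y (Or.inr hqy))
    rw [hwd]
    exact this
  have l2 : ¬ Linked q.1 u.1 w.1 ((gen Γ x)⁻¹ • u.1) := by
    have := x2 Γ hΓ S _ _ _ _ _ _ hu (x4 Γ hΓ S hS _ _ _ hu x (Or.inr hqx))
    rw [← hw]
    intro h
    apply this
    have e1 : (ga (gen Γ x)⁻¹ q).1 = (gen Γ x)⁻¹ • q.1 := rfl
    rw [e1] at h
    have e2 : q.1 = (gen Γ x)⁻¹ • (ga (gen Γ x) q).1 := (inv_smul_smul (gen Γ x) q.1).symm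
    have e3 : u.1 = (gen Γ x)⁻¹ • (ga (gen Γ x) u).1 := (inv_smul_smul (gen Γ x) u.1).symm
    have key : ∀ (g : SL(2, ℝ)) (a b c d : Bd), Linked (g • a) (g • b) (g • c) (g • d) →
        Linked a b c d := by
      intro g a b c d hl
      unfold Linked at hl ⊢
      rw [h2, h2, h2, h2] at hl
      exact hl
    apply key (gen Γ x)⁻¹
    rw [← e2, ← e3]
    exact (h12.2.2.2.2.2.2.2.2.2.1 _ _ _ _).1 h
  -- facing relations
  obtain ⟨fyu1, fyu2⟩ := cyu.2.2.1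
  obtain ⟨fxu1, fxu2⟩ := cxu.2.2.1
  -- the order of q, x, w, u, y
  have t1 : Cyc y.1 q.1 u.1 ∧ Cyc q.1 x.1 u.1 :=
    tr _ _ _ _ (rot _ _ _ (rot _ _ _ o1)) (rot _ _ _ (rot _ _ _ hc))
  have t2 : Cyc y.1 q.1 w.1 ∧ Cyc q.1 x.1 w.1 :=
    tr _ _ _ _ (rot _ _ _ (rot _ _ _ o1)) o2
  by_cases hne : u.1 = w.1
  · have h1 := S.closed u hqu.2.1
    have h2' := S.closed w hwL
    rw [← hne] at h2'
    have := m3 Γ hΓ _ _ _ h1 h2'
    exact Prod.ext hne this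
  · exfalso
    rcases tot x.1 u.1 w.1 (d1 _ _ _ hc).1 hne (d1 _ _ _ o2).2.1.symm with k | k
    · -- u between x and w
      apply l2
      have b1 : Cyc x.2 u.1 x.1 := rot _ _ _ fxu1
      have b3 : Cyc x.2 ((gen Γ x)⁻¹ • u.1) x.1 := by
        have := (h2 (gen Γ x)⁻¹ x.2 u.1 x.1).2 b1
        have e1 : (gen Γ x)⁻¹ • x.1 = x.1 := by rw [inv_smul_eq_iff]; exact ax2.symm
        have e2 : (gen Γ x)⁻¹ • x.2 = x.2 := by rw [inv_smul_eq_iff]; exact ax3.symm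
        rwa [e1, e2] at this
      have b2 := ax4 _ b3
      rw [smul_inv_smul] at b2
      have b4 := (tr _ _ _ _ b2 b1).2
      have b5 := (tr _ _ _ _ (rot _ _ _ (rot _ _ _ b4)) (rot _ _ _ t1.2)).2
      have b6 := (tr _ _ _ _ k (rot _ _ _ t2.2)).2
      right
      exact ⟨rot _ _ _ (rot _ _ _ b5), rot _ _ _ (rot _ _ _ b6)⟩
    · -- u between w and y
      apply l1
      have b0 : Cyc w.1 u.1 y.1 := (tr _ _ _ _ k hc).2
      have b1 : Cyc y.2 u.1 y.1 := rot _ _ _ fyu1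
      have b2 := ay4 _ b1
      have b3 : Cyc y.2 (gen Γ y • u.1) y.1 := by
        have := (h2 (gen Γ y) y.2 u.1 y.1).2 b1
        rwa [ay2, ay3] at this
      have b4 := (tr _ _ _ _ b2 b3).2
      have b5 := (tr _ _ _ _ t1.1 (rot _ _ _ (rot _ _ _ b4))).2
      have b6 := (tr _ _ _ _ t2.1 (rot _ _ _ (rot _ _ _ b0))).2
      left
      exact ⟨b6, b5⟩

/-- the wave case: position of the leaf `ga (gen Γ y)⁻¹ q` -/
theorem HX6_wave (h4 : BD4_stmt) (x1 : HX1_stmt) {Γ : Subgroup SL(2, ℝ)}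
    (hΓ : IsClosedSurfaceGroup Γ) {S : LeafSystem Γ} {q x y : Bd × Bd} (hx : S.Hex q x y) :
    Cyc q.1 y.1 (ga (gen Γ y)⁻¹ q).1 ∧ Cyc q.1 (ga (gen Γ y)⁻¹ q).1 (ga (gen Γ q) x).1 := by
  obtain ⟨r1, r2, r3, r4, r5, r6, r7⟩ := x1 Γ hΓ S
  obtain ⟨d1, rot, -, tot, tr, -⟩ := h4
  have hxy : S.Hex x y q := r1 _ _ _ hx
  have hyq : S.Hex y q x := r1 _ _ _ hxy
  have k1 := r3 _ _ _ hyq
  have k2 := r3 _ _ _ k1
  have k3 := r6 _ _ _ hxy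
  have o1 := k1.2.2.2.1
  have o2 := k2.2.2.2.1
  rw [k3] at o1 o2
  have t := tr _ _ _ _ o2 o1
  exact ⟨rot _ _ _ (rot _ _ _ t.1), rot _ _ _ (rot _ _ _ t.2)⟩

theorem HX6_main (h2 : BD2_stmt) (h3 : BD3_stmt) (h4 : BD4_stmt) (h5 : BD5_stmt) (h8 : BD8_stmt)
    (h12 : BD12_stmt) (m1 : GM1_stmt) (m3 : GM3_stmt) (m6 : GM6_stmt) (m7 : GM7_stmt)
    (n2 : PN2_stmt) (x1 : HX1_stmt) (x2 : HX2_stmt) (x4 : HX4_stmt) {Γ : Subgroup SL(2, ℝ)}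
    (hΓ : IsClosedSurfaceGroup Γ) {S : LeafSystem Γ} (hS : S.IsPants) {p q r : Bd × Bd}
    (hp : S.Hex p q r) {g : SL(2, ℝ)} (hg : g ∈ Γ) : ga g p ≠ q := by
  intro hgp
  obtain ⟨r1, r2, r3, r4, r5, r6, r7⟩ := x1 Γ hΓ S
  obtain ⟨d1, rot, -, tot, tr, -⟩ := id h4
  have hb : S.Hex q r p := r1 _ _ _ hp
  have hqL : q ∈ S.L := hb.1.1
  obtain ⟨gΓ, hatt, a5⟩ := m1 Γ hΓ q (S.closed q hqL)
  obtain ⟨a1, a2, a3, a4⟩ := id hatt
  have hGq : ga (gen Γ q) q = q := Prod.ext a2 a3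
  have hGn : ∀ n : ℤ, ga (gen Γ q ^ n) q = q := fun n => HX6_ga_zpow hGq n
  have hGΓ : ∀ n : ℤ, gen Γ q ^ n ∈ Γ := fun n => Subgroup.zpow_mem _ gΓ n
  have cY : ∀ n : ℤ, S.Hex q (ga (gen Γ q ^ n) r) (ga (gen Γ q ^ n) p) := by
    intro n
    have := r4 _ (hGΓ n) _ _ _ hb
    rwa [hGn n] at this
  have hsucc : ∀ (n : ℤ) (t : Bd × Bd), ga (gen Γ q) (ga (gen Γ q ^ n) t)
      = ga (gen Γ q ^ (n + 1)) t := by
    intro n t
    rw [← HX6_ga_mul, ← _root_.zpow_one_add, add_comm]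
  have cZ : ∀ n : ℤ, S.Hex q (ga (gen Γ q ^ n) p) (ga (gen Γ q ^ (n + 1)) r) := by
    intro n
    have := r2 _ _ _ (cY n)
    rwa [hsucc] at this
  obtain ⟨u, hud⟩ : ∃ u, u = ga g q := ⟨_, rfl⟩
  obtain ⟨v, hvd⟩ : ∃ v, v = ga g r := ⟨_, rfl⟩
  have hu : S.Hex q u v := by
    have := r4 g hg _ _ _ hp
    rwa [hgp, ← hud, ← hvd] at this
  obtain ⟨φ, -, φinj, φ1, φ4, -⟩ := h3 q.1
  have neOf : ∀ s, S.CoPl q s → s.1 ≠ q.1 ∧ φ q.2 < φ s.1 := by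
    intro s hs
    have h := hs.2.2.1.1
    have hne := (d1 _ _ _ h).2.2
    exact ⟨hne, (φ1 _ _ a1.symm hne).1 h⟩
  have coY : ∀ n : ℤ, S.CoPl q (ga (gen Γ q ^ n) r) := fun n => (cY n).1
  have coZ : ∀ n : ℤ, S.CoPl q (ga (gen Γ q ^ n) p) := fun n => (cZ n).1
  have yz : ∀ n : ℤ, φ (ga (gen Γ q ^ n) r).1 < φ (ga (gen Γ q ^ n) p).1 := fun n =>
    (φ1 _ _ (neOf _ (coY n)).1 (neOf _ (coZ n)).1).1 (cY n).2.2.2.1
  have zy : ∀ n : ℤ, φ (ga (gen Γ q ^ n) p).1 < φ (ga (gen Γ q ^ (n + 1)) r).1 := fun n =>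
    (φ1 _ _ (neOf _ (coZ n)).1 (neOf _ (coY (n + 1))).1).1 (cZ n).2.2.2.1
  have ymono : StrictMono (fun n : ℤ => φ (ga (gen Γ q ^ n) r).1) :=
    strictMono_int_of_lt_succ fun n => (yz n).trans (zy n)
  have zmono : StrictMono (fun n : ℤ => φ (ga (gen Γ q ^ n) p).1) :=
    strictMono_int_of_lt_succ fun n => (zy n).trans (yz (n + 1))
  have conv : ∀ s t : Bd, s ≠ q.1 → t ≠ q.1 → φ q.2 < φ s → φ q.2 < φ t → Cyc q.2 s t →
      φ s < φ t := by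
    intro s t hs ht k1 k2 h
    rcases (φ4 _ _ _ a1.symm hs ht).1 h with h | h | h
    · exact h.2
    · exact h.1
    · linarith [h.1]
  have hr1 : Cyc q.2 r.1 q.1 := rot _ _ _ hb.1.2.2.1.1
  have hu1 : Cyc q.2 u.1 q.1 := rot _ _ _ hu.1.2.2.1.1
  obtain ⟨⟨N, hN⟩, ⟨N', hN'⟩, -⟩ := m7 _ q r.1 u.1 hatt hr1 hu1
  have hN1 : φ u.1 < φ (ga (gen Γ q ^ (N : ℤ)) r).1 := by
    apply conv _ _ (neOf _ hu.1).1 (neOf _ (coY N)).1 (neOf _ hu.1).2 (neOf _ (coY N)).2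
    rw [show (ga (gen Γ q ^ (N : ℤ)) r).1 = gen Γ q ^ (N : ℤ) • r.1 from rfl, zpow_natCast]
    exact hN
  have hN1' : φ (ga (gen Γ q ^ (-(N' : ℤ))) r).1 < φ u.1 := by
    apply conv _ _ (neOf _ (coY _)).1 (neOf _ hu.1).1 (neOf _ (coY _)).2 (neOf _ hu.1).2
    rw [show (ga (gen Γ q ^ (-(N' : ℤ))) r).1 = gen Γ q ^ (-(N' : ℤ)) • r.1 from rfl, _root_.zpow_neg,
      zpow_natCast, ← inv_pow]
    exact hN'
  obtain ⟨k, hk1, hk2⟩ := Int.exists_greatest_of_bdd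
    (P := fun n : ℤ => φ (ga (gen Γ q ^ n) r).1 ≤ φ u.1)
    ⟨N, fun z hz => by
      by_contra hcon
      push Not at hcon
      have := ymono hcon
      simp only at this
      linarith⟩ ⟨-(N' : ℤ), hN1'.le⟩
  have hk3 : φ u.1 < φ (ga (gen Γ q ^ (k + 1)) r).1 := by
    by_contra hcon
    push Not at hcon
    have := hk2 _ hcon
    omega
  have hune := (neOf _ hu.1).1
  have pL : p ∈ S.L := hp.1.1
  have pne : p.1 ≠ p.2 := (S.closed p pL).1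
  have fpq := hp.1.2.2.1
  have pq1 : p.2 ≠ q.1 := (d1 _ _ _ fpq.1).2.1
  have pq2 : q.1 ≠ p.1 := (d1 _ _ _ fpq.1).2.2
  have pq : p ≠ q := by
    rintro rfl
    exact pq2 rfl
  -- an element with a power fixing p and q
  have tor : ∀ δ ∈ Γ, ∀ n : ℕ, 1 ≤ n → ga δ p = q → ga (δ ^ n) p = p → ga (δ ^ n) q = q →
      False := by
    intro δ hδ n hn e1 e2 e3
    have h := h5 (δ ^ n) p.1 p.2 q.1 pne pq1 pq2 (congrArg Prod.fst e2) (congrArg Prod.snd e2)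
      (congrArg Prod.fst e3)
    have h' := HX6_tor h8 m6 hΓ hδ hn h
    rw [HX6_ga_peq h' p, HX6_ga_one] at e1
    exact pq e1
  -- the final contradiction in the wave case
  have wave : ∀ y : Bd × Bd, u = ga (gen Γ y) q → gen Γ y ∈ Γ →
      ∃ m : ℤ, ga (gen Γ y)⁻¹ q = ga (gen Γ q ^ m) p := by
    intro y hy hyΓ
    have h1 : ga ((gen Γ y)⁻¹ * g) q = q := by
      rw [HX6_ga_mul, ← hud, hy, ← HX6_ga_mul, inv_mul_cancel, HX6_ga_one]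
    obtain ⟨m, hm⟩ := a5 _ (Γ.mul_mem (Γ.inv_mem hyΓ) hg) (congrArg Prod.fst h1)
      (congrArg Prod.snd h1)
    refine ⟨m, ?_⟩
    rw [← HX6_ga_peq hm p, HX6_ga_mul, hgp]
  have genΓ : ∀ s ∈ S.L, gen Γ s ∈ Γ := fun s hs => (m1 Γ hΓ s (S.closed s hs)).1
  have uClosed := S.closed u hu.1.2.1
  rcases lt_or_eq_of_le hk1 with hlt | heq
  · -- Y k < u
    rcases lt_trichotomy (φ u.1) (φ (ga (gen Γ q ^ k) p).1) with h | h | h
    · -- Y k < u < Z k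
      have hc : Cyc (ga (gen Γ q ^ k) r).1 u.1 (ga (gen Γ q ^ k) p).1 :=
        (φ4 _ _ _ (neOf _ (coY k)).1 hune (neOf _ (coZ k)).1).2 (Or.inl ⟨hlt, h⟩)
      have hcore := HX6_core h2 h4 h12 m1 m3 n2 x1 x2 x4 hΓ hS (cY k) hu hc
      obtain ⟨m, hm⟩ := wave _ hcore (genΓ _ (coZ k).2.1)
      obtain ⟨w1, w2⟩ := HX6_wave h4 x1 hΓ (cY k)
      rw [hm] at w1 w2
      rw [hsucc] at w2
      have w1' := (φ1 _ _ (neOf _ (coZ k)).1 (neOf _ (coZ m)).1).1 w1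
      have w2' := (φ1 _ _ (neOf _ (coZ m)).1 (neOf _ (coY (k + 1))).1).1 w2
      have g1 : k < m := zmono.lt_iff_lt.1 w1'
      have g2 := zmono.monotone (show k + 1 ≤ m by omega)
      have g3 := yz (k + 1)
      simp only at g2
      linarith
    · -- u = Z k
      have e := φinj _ _ hune (neOf _ (coZ k)).1 h
      have hzc := S.closed _ (coZ k).2.1
      rw [← e] at hzc
      have hue : u = ga (gen Γ q ^ k) p := Prod.ext e (m3 Γ hΓ _ _ _ uClosed hzc)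
      have k1 : ga ((gen Γ q ^ k)⁻¹ * g) p = q := by
        rw [HX6_ga_mul, hgp]
        exact HX6_ga_inv (hGn k)
      have k2 : ga ((gen Γ q ^ k)⁻¹ * g) q = p := by
        rw [HX6_ga_mul, ← hud, hue]
        exact HX6_ga_inv rfl
      refine tor _ (Γ.mul_mem (Γ.inv_mem (hGΓ k)) hg) 2 (by norm_num) k1 ?_ ?_
      · rw [pow_two, HX6_ga_mul, k1, k2]
      · rw [pow_two, HX6_ga_mul, k2, k1]
    · -- Z k < u < Y (k+1)
      have hc : Cyc (ga (gen Γ q ^ k) p).1 u.1 (ga (gen Γ q ^ (k + 1)) r).1 :=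
        (φ4 _ _ _ (neOf _ (coZ k)).1 hune (neOf _ (coY (k + 1))).1).2 (Or.inl ⟨h, hk3⟩)
      have hcore := HX6_core h2 h4 h12 m1 m3 n2 x1 x2 x4 hΓ hS (cZ k) hu hc
      obtain ⟨m, hm⟩ := wave _ hcore (genΓ _ (coY (k + 1)).2.1)
      obtain ⟨w1, w2⟩ := HX6_wave h4 x1 hΓ (cZ k)
      rw [hm] at w1 w2
      rw [hsucc] at w2
      have w1' := (φ1 _ _ (neOf _ (coY (k + 1))).1 (neOf _ (coZ m)).1).1 w1
      have w2' := (φ1 _ _ (neOf _ (coZ m)).1 (neOf _ (coZ (k + 1))).1).1 w2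
      have g1 : m < k + 1 := zmono.lt_iff_lt.1 w2'
      have g2 := zmono.monotone (show m ≤ k by omega)
      have g3 := zy k
      simp only at g2
      linarith
  · -- u = Y k
    have e := φinj _ _ hune (neOf _ (coY k)).1 heq.symm
    have hyc := S.closed _ (coY k).2.1
    rw [← e] at hyc
    have hue : u = ga (gen Γ q ^ k) r := Prod.ext e (m3 Γ hΓ _ _ _ uClosed hyc)
    have hve : v = ga (gen Γ q ^ k) p := by
      have h1 := cY k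
      rw [← hue] at h1
      exact r5 _ _ _ _ hu h1
    have k1 : ga ((gen Γ q ^ k)⁻¹ * g) p = q := by
      rw [HX6_ga_mul, hgp]
      exact HX6_ga_inv (hGn k)
    have k2 : ga ((gen Γ q ^ k)⁻¹ * g) q = r := by
      rw [HX6_ga_mul, ← hud, hue]
      exact HX6_ga_inv rfl
    have k3 : ga ((gen Γ q ^ k)⁻¹ * g) r = p := by
      rw [HX6_ga_mul, ← hvd, hve]
      exact HX6_ga_inv rfl
    refine tor _ (Γ.mul_mem (Γ.inv_mem (hGΓ k)) hg) 3 (by norm_num) k1 ?_ ?_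
    · rw [pow_succ, pow_two, HX6_ga_mul, HX6_ga_mul, k1, k2, k3]
    · rw [pow_succ, pow_two, HX6_ga_mul, HX6_ga_mul, k2, k3, k1]

theorem HX6 (h2 : BD2_stmt) (h3 : BD3_stmt) (h4 : BD4_stmt) (h5 : BD5_stmt) (h8 : BD8_stmt)
    (h12 : BD12_stmt) (m1 : GM1_stmt) (m3 : GM3_stmt) (m6 : GM6_stmt) (m7 : GM7_stmt)
    (n2 : PN2_stmt) (x1 : HX1_stmt) (x2 : HX2_stmt) (x4 : HX4_stmt) : HX6_stmt := by
  intro Γ hΓ S hS p q r hp g hg
  refine ⟨HX6_main h2 h3 h4 h5 h8 h12 m1 m3 m6 m7 n2 x1 x2 x4 hΓ hS hp hg, ?_⟩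
  intro h
  have h1 := (x1 Γ hΓ S).2.2.1 _ _ _ hp
  have hpΓ : gen Γ p ∈ Γ := (m1 Γ hΓ p (S.closed p hp.1.1)).1
  apply HX6_main h2 h3 h4 h5 h8 h12 m1 m3 m6 m7 n2 x1 x2 x4 hΓ hS h1
    (Γ.mul_mem (Γ.inv_mem hpΓ) hg)
  rw [HX6_ga_mul, h]

end AdSBend
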