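import Pool.Agent.helper69.AD.GS2

open scoped MatrixGroups LinearAlgebra.Projectivization
open Matrix UpperHalfPlane

namespace AdSBend

theorem PM2 (h : PN6_stmt) : PM2_stmt := by
  intro Γ hΓ S E A A' hA hA' z z' hz hz'
  have hc := (h Γ hΓ S).1 z z' hz hz'
  clear hz'
  induction hc with
  | refl => simp
  | tail hab hbc ih =>
    rename_i b c
    obtain ⟨hb, hc, hs⟩ := hbc
    rcases hs with hs | ⟨p, hs⟩
    · rw [← hA.1 b c hb hc hs, ← hA'.1 b c hb hc hs]
      exact ih
    · rw [hA.2 b c p hb hc hs, hA'.2 b c p hb hc hs, ← mul_assoc, ← mul_assoc, ih]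

end AdSBend
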